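import Mathlib
import Pool.Agent.X207.AL1

/-!
The operator version of Alzer's additive arithmetic-geometric mean inequality: for positive
invertible operators `A j ≤ 1/2` on a complex Hilbert space and the recursively defined geometric
mean, `(AM A - GM A) - (AM (1 - A) - GM (1 - A))` is positive.
-/

namespace Pool.Agent.Results.MP_be8317_an.AlzerOperator
open Pool.Agent.X207.AL

theorem result (H : Type*) [NormedAddCommGroup H] [InnerProductSpace ℂ H] [CompleteSpace H]
    (n : ℕ) (hn : 2 ≤ n) (A : Fin n → (H →L[ℂ] H))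
    (hpos : ∀ j, (A j).IsPositive ∧ IsUnit (A j))
    (hle : ∀ j, ((1 / 2 : ℝ) • (1 : H →L[ℂ] H) - A j).IsPositive) :
    ((AM n A - GM n A) - (AM n (fun j => 1 - A j) - GM n (fun j => 1 - A j))).IsPositive := by
  have h := alzer (A := H →L[ℂ] H) n A (by omega)
    (fun i => ⟨(ContinuousLinearMap.nonneg_iff_isPositive _).mpr (hpos i).1, (hpos i).2⟩)
    (fun i => sub_nonneg.mp ((ContinuousLinearMap.nonneg_iff_isPositive _).mpr (hle i)))
  exact (ContinuousLinearMap.nonneg_iff_isPositive _).mp (sub_nonneg.mpr h)

end Pool.Agent.Results.MP_be8317_an.AlzerOperator
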